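import Pool.Agent.X264.LadderB

/-!
# The conjecture D on the square of a variety in one codimension

Let `X` be a smooth projective variety of dimension `n` over a field of any characteristic, `W` a
Weil cohomology theory, `D` a divisor on `X` with hard Lefschetz, and `1 ≤ r ≤ n`. Assume that
homological and numerical equivalence agree on `X × X` in the one codimension `n + r`. Then:

1. they agree on `X × X` in the codimensions `n + s` and `n - s` for all `s` with `r ≤ s ≤ n`;
2. they agree on `X` in all codimensions `j ≥ r`, and in the codimensions `j ≤ n / 2` with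
   `j ≤ n - r` (so in all codimensions if `2 r ≤ n + 1`);
3. for all `i ≤ n - r` the inverse of the Lefschetz isomorphism `H^i(X) → H^(2n - i)(X)` is
   induced by an algebraic cycle, which can be taken to act as zero in all other degrees, and the
   Kunneth projectors of degree `i` and `2n - i` are algebraic;
4. the failure of the conjecture on `X × X` is concentrated near the middle: a numerically trivial
   cycle of codimension `p` on `X × X` acts as zero on `H^i(X)` for all `i` with
   `|i + p - 2n| ≥ r`, and it is killed by the composition with `D ^ e`, on either side, as soon as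
   `p + e ≥ n + r`;
5. if `X` has no primitive classes of degree `i` for `n - r < i ≤ n`, then homological and
   numerical equivalence agree on `X × X` in all codimensions.

If homological and numerical equivalence agree on `X × X` in codimension `n`, then conversely 3.
implies that they agree in codimension `n + r`.
-/

open Pool.Agent.H914 Pool.Agent.H447 Pool.Agent.W537 Pool.Agent.X264 VarClass Obj

universe u v

namespace Pool.Agent.Results.MP_5f0950_ag.LadderOfCodimensions

/-- **The conjecture D on `X × X` in the one codimension `n + r`.** -/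
theorem result {k : Type u} [Field k] {𝒱 : VarClass k} {ops : CycleOps 𝒱}
    (W : WeilCohomology.{u, v} ops) (X : 𝒱.Obj) (D : X.Cycles) (hD : X.IsCyc 1 D)
    (hHL : HardLefschetz W X D) {r : ℕ} (hr : 1 ≤ r) (hrn : r ≤ X.dim) :
    (HomEqNumIn W (X.prod X) (X.dim + r) →
      DSquareFrom W X r ∧
      (∀ j ≤ X.dim, (r ≤ j ∨ 2 * j ≤ X.dim ∧ j + r ≤ X.dim) → HomEqNumIn W X j) ∧
      ProjectorsTo W X D r ∧
      Concentrated W X D r ∧
      ((∀ i ≤ X.dim, X.dim < i + r → NoPrimitive W X D i) → HomEqNum W (X.prod X))) ∧
    (HomEqNumIn W (X.prod X) X.dim →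
      List.TFAE [HomEqNumIn W (X.prod X) (X.dim + r), DSquareFrom W X r,
        InversesTo W X D r]) := by
  have hLh : IsHom (W.gr X) 2 (LL D W) := LL_isHom hD W
  obtain ⟨f, t, hf, hf'⟩ := exists_sl2 (W.isInternal X) hLh W_hbd hHL
  have hinv : HomEqNumIn W (X.prod X) (X.dim + r) →
      ∃ F, Invs (W.gr X) (ROp W X) X.dim (LL D W) r F :=
    fun h => exists_invs hD hrn (inverts_of_homEqNumIn hD hHL hr hrn h)
  have hup : HomEqNumIn W (X.prod X) (X.dim + r) →
      ∀ s : ℕ, r ≤ s → NumZero (ROp W X) (W.isInternal X) s := by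
    intro h
    obtain ⟨F, hF⟩ := hinv h
    have hN := (homEqNumIn_iff (W := W) (X := X) (q := X.dim + r) (by omega) (d := r)
      (by push_cast; rfl)).1 h
    exact hN.up rop_opAlg W_hbd (rop_mulLeft hD) hHL hr hF
  have hdown : HomEqNumIn W (X.prod X) (X.dim + r) →
      ∀ s : ℕ, r ≤ s → NumZero (ROp W X) (W.isInternal X) (-s) :=
    fun h s hs => (hup h s hs).neg rop_opAlg (rop_mulLeft hD) t
  have h1 : HomEqNumIn W (X.prod X) (X.dim + r) → ∀ s, r ≤ s → s ≤ X.dim →
      HomEqNumIn W (X.prod X) (X.dim + s) ∧ HomEqNumIn W (X.prod X) (X.dim - s) := by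
    intro h s hrs hsn
    exact ⟨(homEqNumIn_iff (by omega) (d := s) (by push_cast; rfl)).2 (hup h s hrs),
      (homEqNumIn_iff (by omega) (d := -s) (by omega)).2 (hdown h s hrs)⟩
  have h2 : HomEqNumIn W (X.prod X) (X.dim + r) → ∀ j, r ≤ j → j ≤ X.dim → HomEqNumIn W X j :=
    fun h j hrj hj => homEqNumIn_of_square hD hHL h hrj hj
  refine ⟨fun h => ⟨h1 h, ?_, ?_, ?_, ?_⟩, ?_⟩
  · rintro j hj (hrj | ⟨hj2, hjr⟩)
    · exact h2 h j hrj hj
    · exact homEqNumIn_low hD hHL hj2 (h2 h (X.dim - j) (by omega) (by omega))
  · obtain ⟨F, hF⟩ := hinv h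
    exact exists_cycles hD hF
  · intro p hp z hz
    obtain ⟨F, hF⟩ := hinv h
    obtain ⟨hb1, hb2⟩ := NT.band rop_opAlg W_hbd (rop_mulLeft hD) hHL hF (hup h) (hdown h)
      (hz.nt (W := W) hp)
    refine ⟨?_, ?_⟩
    · intro i hi a ha
      refine hb1 i ?_ a ha
      rcases hi with hi | hi
      · exact le_abs.2 (Or.inr (by omega))
      · exact le_abs.2 (Or.inl (by omega))
    · intro e he
      obtain ⟨h3, h4⟩ := hb2 e (by omega)
      rw [LinearMap.pow_mulLeft] at h3 h4
      exact fun a => ⟨congrArg (fun G => G a) h3, congrArg (fun G => G a) h4⟩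
  · intro hprim
    -- down to degree zero
    have key : ∀ d s : ℕ, s + d = r → NumZero (ROp W X) (W.isInternal X) s := by
      intro d
      induction d with
      | zero => intro s hs; exact hup h s (by omega)
      | succ d ih =>
        intro s hs
        refine (ih (s + 1) (by omega)).down rop_opAlg W_hbd (rop_mulLeft hD) hHL ?_
        intro i hi his a ha hp
        apply hprim i hi (by omega) a ha
        rwa [LinearMap.pow_mulLeft] at hp
    have hall : ∀ s : ℕ, NumZero (ROp W X) (W.isInternal X) s := by
      intro s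
      by_cases hs : r ≤ s
      · exact hup h s hs
      · exact key (r - s) s (by omega)
    intro q hq
    rw [dim_prod] at hq
    by_cases hqn : X.dim ≤ q
    · exact (homEqNumIn_iff (by omega) (d := ((q - X.dim : ℕ) : ℤ)) (by omega)).2 (hall _)
    · exact (homEqNumIn_iff (by omega) (d := -((X.dim - q : ℕ) : ℤ)) (by omega)).2
        ((hall _).neg rop_opAlg (rop_mulLeft hD) t)
  · intro h0
    tfae_have 1 → 2 := h1
    tfae_have 2 → 1 := fun h => (h r le_rfl hrn).1
    tfae_have 1 → 3 := fun h => inverts_of_homEqNumIn hD hHL hr hrn h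
    tfae_have 3 → 1 := by
      intro h
      obtain ⟨F, hF⟩ := exists_invs hD hrn h
      have hN := (homEqNumIn_iff (W := W) (X := X) (q := X.dim) (by omega) (d := 0)
        (by simp)).1 h0
      exact (homEqNumIn_iff (by omega) (d := r) (by push_cast; rfl)).2
        (NumZero.of_zero rop_opAlg W_hbd (rop_mulLeft hD) hHL hF hN)
    tfae_finish

end Pool.Agent.Results.MP_5f0950_ag.LadderOfCodimensions
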