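import Pool.Agent.X312.DL.Eff

/-!
# A logarithmic zero-infinity law for the standard conjecture D on the powers of a variety

Let `k` be an algebraically closed field (in this framework the degree of a zero-cycle is the sum of
its coefficients; the conjecture D for a variety over a field follows from the conjecture over an
algebraic closure), `W` any Weil cohomology theory (with coefficient field `K`) on a class of smooth
proper varieties over `k` which is closed under products, and `X` a variety of the class. Let `b` be the
sum of the Betti numbers of `X`, and for `n ≥ 1` let

* `r(n)` be the rank of the group of the cycles of all codimensions on `X ^ n` modulo numerical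
  equivalence;
* `h(n)` be the dimension of the subspace of `H(X ^ n)` spanned over `K` by the classes of the
  algebraic cycles of all codimensions, so that `r(n) ≤ h(n)`.

If homological and numerical equivalence coincide on all powers of `X` then `h(n) = r(n)` for all `n`.
The theorem: **if there is one power `X ^ m` on which they do not coincide then**

`h(n) ≥ log n / (64 m log (b + 1)) * r(n)` **for all** `n ≥ 1`.

So the conjecture D for the fixed variety `X ^ m`, in all codimensions, follows from a single inequality
`h(n) < log n / (64 m log (b + 1)) * r(n)`, for one `n` of which one only has to know the ranks; and
(zero-infinity law) either the conjecture D holds for all powers of `X`, or `r(n) / h(n)` tends to zero: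
asymptotically almost all algebraic classes disappear modulo numerical equivalence. Nothing is assumed
on `X` or on the cohomology; no standard conjecture and no Lefschetz theorem is used.

The proof. Let `α(l)` be the rank of the intersection form on the algebraic classes on `X ^ (2 l + 2)`.
The sequence `α` is log-convex (Cauchy-Schwarz inequality for idempotents), and `α(l + 1) ≤ b² α(l)`.
Fix `n`, about `2 l`. If `α(l + 1)` is smaller than `(1 - η) b² α(l)` then `α(i + 1)` is smaller than
`(1 - η) b² α(i)` for all `i ≤ l`, so that `α(l)` is exponentially small compared with the dimension of
the span of the permutations of the factors. Otherwise the numerically trivial correspondences on the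
powers which occur are nilpotent, and a numerically trivial class `z ≠ 0` on `X ^ m` gives the
descending sequence `1, z, z × z, …` of classes, each obtained from the preceding one by a numerically
trivial correspondence; the subspaces generated by them form a chain, and each step contributes the rank
of the intersection form on the image of an idempotent, about `r(n)`, to the dimension `h(n)`. The length
of the chain is of the order of `log n / (m log (b + 1))`. The qualitative statement (without the rate)
is the theorem `d_law` of the starting file `Pool/Agent/Y133/Half/DLaw.lean`, which had not been handed
in.
-/

set_option autoImplicit false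

open CategoryTheory AlgebraicGeometry

universe u v

namespace Pool.Agent.Results.MP_5f0950_ag.LogarithmicLaw

open Pool.Agent.H914 Pool.Agent.H914.VarClass Pool.Agent.H914.VarClass.Obj
  Pool.Agent.H914.WeilCohomology Pool.Agent.Y133.Half

variable {k : Type u} [Field k] {𝒱 : VarClass k} {ops : CycleOps 𝒱}

/-- The sum of the Betti numbers of `X`. -/
noncomputable def totalBetti (W : WeilCohomology.{u, v} ops) (X : 𝒱.Obj) : ℕ :=
  Module.finrank W.K (W.H X)

/-- **The logarithmic zero-infinity law for the conjecture D.** Here `pw X m` is the product of `m + 1`
copies of `X`, `HomEqNum W Z` says that homological and numerical equivalence coincide on `Z` in all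
codimensions, `cycRank ops Z` is the rank of the cycles on `Z` modulo numerical equivalence, and
`algDim W Z` is the dimension of the span of the classes of the cycles on `Z`. -/
theorem result (W : WeilCohomology.{u, v} ops) (X : 𝒱.Obj) (m : ℕ) :
    HomEqNum W (pw X m) ∨ ∀ n : ℕ, Real.log (n + 1) * cycRank ops (pw X n) ≤
      64 * (m + 1) * Real.log (totalBetti W X + 1) * algDim W (pw X n) := by
  by_cases hD : HomEqNum W (pw X m)
  · exact Or.inl hD
  right
  intro n
  have hN : (algSys W).Num (pw X m) ≠ ⊥ := by
    intro h
    apply hD
    apply Pool.Agent.Y129.homEqNum_of_algSpan
    intro c hc hc'
    have h1 : c ∈ (algSys W).Num (pw X m) := mem_algNum.2 ⟨hc, hc'⟩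
    rw [h, Submodule.mem_bot] at h1
    exact h1
  have h := Pool.Agent.X312.DL.num_log (S := algSys W) (T := algSys W) (fun _ => le_rfl) X hN n
  rw [numDim_eq_cycRank] at h
  have h1 : Module.finrank W.K ((algSys W).C (pw X n)) = algDim W (pw X n) := (algDim_eq W _).symm
  rw [h1] at h
  exact h

end Pool.Agent.Results.MP_5f0950_ag.LogarithmicLaw
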