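import Pool.Agent.X264.SemiE
import Pool.Agent.X264.RingPreds

/-!
# The conjecture D and the ring of correspondences of one variety

Let `X` be a smooth projective variety over a field of any characteristic and `W` a Weil cohomology
theory. Let `E(X)` be the ring of operators on `H(X)` which is generated by the operators induced by
the algebraic cycles of all codimensions on `X × X` (rational coefficients), and `A(X)` the
`E(X)`-submodule of `H(X)` generated by the classes of the algebraic cycles of all codimensions.

1. If `X` has a zero-cycle of nonzero degree, then homological and numerical equivalence agree on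
   `X` if and only if `A(X)` is a semisimple `E(X)`-module, and if and only if `A(X)` is an
   injective `E(X)`-module.
2. If `X` has a zero-cycle of nonzero degree and the ring `E(X)` is self-injective, then homological
   and numerical equivalence agree on `X`. If `E(X × X)` is self-injective, then `E(X)` is
   semisimple.
3. If `X` has a divisor with hard Lefschetz, then homological and numerical equivalence agree on
   `X × X` if and only if the ring `E(X)` is semisimple, if and only if `H(X)` is a semisimple
   `E(X)`-module, and if and only if each `T` in `E(X)` has a generalized inverse `S` in `E(X)`,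
   i.e. `T S T = T`.
4. For a set `S` of varieties with zero-cycles of nonzero degree, homological and numerical
   equivalence agree on all products of members of `S` if and only if `E(Y)` is semisimple for all
   these products `Y`, and if and only if `E(Y)` is self-injective for all these products `Y`.
-/

open Pool.Agent.H914 Pool.Agent.H447 Pool.Agent.W537 Pool.Agent.X264 VarClass Obj

universe u v

namespace Pool.Agent.Results.MP_5f0950_ag.RingOfCorrespondences

/-- **The conjecture D and the ring of correspondences of one variety.** -/
theorem result {k : Type u} [Field k] {𝒱 : VarClass k} {ops : CycleOps 𝒱}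
    (W : WeilCohomology.{u, v} ops) :
    (∀ X : 𝒱.Obj, HasZeroCycle X →
      List.TFAE [HomEqNum W X, ClassesSemisimple W X, ClassesInjective W X] ∧
      (CorrSelfInjective W X → HomEqNum W X) ∧
      (CorrSelfInjective W (X.prod X) → CorrSemisimple W X)) ∧
    (∀ (X : 𝒱.Obj) (D : X.Cycles), X.IsCyc 1 D → HardLefschetz W X D →
      List.TFAE [HomEqNum W (X.prod X), CorrSemisimple W X, CohomologySemisimple W X,
        CorrInverses W X]) ∧
    (∀ S : Set 𝒱.Obj, (∀ X ∈ S, HasZeroCycle X) →
      List.TFAE [∀ Y, IsProductOf S Y → HomEqNum W Y,
        ∀ Y, IsProductOf S Y → CorrSemisimple W Y,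
        ∀ Y, IsProductOf S Y → CorrSelfInjective W Y]) := by
  refine ⟨fun X hX => ⟨?_, fun h => homEqNum_of_selfInjective hX h, fun h =>
    semisimple_of_homEqNum (homEqNum_of_selfInjective (hX.prod W hX) h)⟩,
    fun X D hD hHL => ?_, fun S hS => ?_⟩
  · tfae_have 1 → 2 := fun h => semisimple_classModule h
    tfae_have 2 → 1 := fun h => homEqNum_of_semisimple_classModule hX h
    tfae_have 1 → 3 := fun h => injective_of_homEqNum hX h
    tfae_have 3 → 1 := fun h => homEqNum_of_injective h
    tfae_finish
  · tfae_have 1 → 2 := fun h => semisimple_of_homEqNum h
    tfae_have 2 → 1 := fun h => homEqNum_of_semisimple hD hHL h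
    tfae_have 2 → 3 := fun h => by
      have h' : IsSemisimpleRing (corrRing W X) := h
      exact (inferInstance : IsSemisimpleModule (corrRing W X) (W.H X))
    tfae_have 3 → 2 := fun h => semisimple_ring_of_module h
    tfae_have 2 → 4 := by
      intro h T hT
      obtain ⟨S, hS⟩ := exists_inverse_of_semisimple h ⟨T, hT⟩
      exact ⟨S, S.2, congrArg Subtype.val hS⟩
    tfae_have 4 → 2 := fun h => semisimple_of_inverses h
    tfae_finish
  · tfae_have 1 → 2 := fun h Y hY => semisimple_of_homEqNum (h _ (hY.prod hY))
    tfae_have 2 → 3 := fun h Y hY => by
      have h' : IsSemisimpleRing (corrRing W Y) := h Y hY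
      exact Module.injective_of_isSemisimpleRing _ _
    tfae_have 3 → 1 := fun h Y hY =>
      homEqNum_of_selfInjective (IsProductOf.hasZeroCycle W hS hY) (h Y hY)
    tfae_finish

end Pool.Agent.Results.MP_5f0950_ag.RingOfCorrespondences
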