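import Pool.Agent.X227.NP.DHodge

/-!
# Conjecture D for the products of any complex variety with powers of varieties of symplectic type

Let `W` be the cohomology of smooth projective complex varieties with coefficients in `ℂ`, with the
rational Hodge structures (`HodgeData`; the rational classes are the classes which are fixed by the
action of the automorphisms of the coefficients; any Weil cohomology theory with algebraically closed
coefficients and rational Hodge structures is allowed).

Let `X i` be any family of varieties (`SpFamily`), which may be infinite: `X i` is odd-dimensional,
homological and numerical equivalence coincide on `X i`, the transcendental cohomology `T i` (the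
orthogonal complement of all algebraic classes) is in the middle degree, the Mumford-Tate group acts
irreducibly on the Lie algebra of the operators on `T i` which are skew for the intersection form, and
these adjoint representations are pairwise not isomorphic. Examples: very general curves,
hypersurfaces and complete intersections of odd dimension. Let `Z` be ANY variety; nothing is
supposed about the standard conjectures for `Z`.

(1) There is a finite set `B` of indices with `∑ dim T i ≤ dim H(Z)`, none of them separated from `Z`
by Hodge types, such that homological and numerical equivalence coincide on the product of `Z` with
any powers of the `X i` if and only if they coincide on those subproducts with `i ∈ B` which are small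
(`SmallHodge`): for some degree `m` of the right parity the product of the numbers
(exponent of `X i`) + 1 and the sum of the `dim T i`, over the `i` which occur, are at most the Betti
number `b_m(Z)`, and the sum of the numbers `min |p - q|`, over the Hodge types `(p, q)` of the `T i`,
is at most `m` and `2 dim Z - m`. So finitely many products decide for infinitely many.

(2) If all `X i` are separated from `Z` by Hodge types (`TypeSep`: the cohomology of `Z` is generated
by pieces of width at most `N`, and `T i` has a Hodge type `(p, q)` with `p - q > N`; `N = dim Z` is
always possible, `N = 1` if `Z` is an abelian variety or a product of curves) then homological and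
numerical equivalence coincide on `(Z × ∏ X i ^ (a i)) ^ (n + 1)` if and only if they coincide on
`Z ^ (n + 1)`, for all exponents `a i` and all `n` (in particular for `n = 0`).

(3) In particular, if conjecture D is true for `Z` it is true for `Z × ∏ X i ^ (a i)` whenever the
transcendental cohomology of each `X i` has a Hodge type `(p, q)` with `p - q > dim Z`, or `Z` is
arbitrary and the dimensions of the `T i` exceed all Betti numbers of `Z`.

By the theorem of Lieberman conjecture D is true for all `Z` with `dim Z ≤ 4`. For most varieties of
dimension three and four the Lefschetz type standard conjecture is not known, and the known
methods do not give conjecture D for products with `Z`. By (3) it is true for the products of all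
`Z` of dimension at most four with all products of powers of, for example, very general
hypersurfaces `X i` of odd dimension at least five which have a holomorphic form of the top degree.

The idea of the proof: let `F` be a numerically trivial algebraic class on the product. Its components
in the tensor factors `T i` are functions with values in `H(Z)`. The contraction of two factors
by the intersection form is given by algebraic correspondences, so it is numerically trivial, and by
induction it vanishes for a minimal nonzero `F`, that is, the functions are traceless. The traceless
parts of the tensor powers of the `T i`, on which the Mumford-Tate group acts through a large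
symplectic group, occur in a twist of `H(Z)`, which gives the bounds. No positivity is used.
-/

open CategoryTheory AlgebraicGeometry

universe u

namespace Pool.Agent.Results.MP_5f0950_ag.TimesSymplecticType

open Pool.Agent.H914 Pool.Agent.H914.VarClass Pool.Agent.H914.VarClass.Obj Pool.Agent.Y132.AH
  Pool.Agent.X227.NP

variable {k : Type u} [Field k] {𝒱 : VarClass k} {ops : CycleOps 𝒱}

theorem result (W : WeilCohomology.{u, 0} ops) [IsAlgClosed W.K] (Ψ : HodgeData W)
    {ι : Type} [DecidableEq ι] (X : ι → 𝒱.Obj) (hX : SpFamily Ψ X) (Z : 𝒱.Obj) :
    (∃ B : Finset ι, ∑ i ∈ B, trDim W (X i) ≤ totDim W Z ∧ (∀ i ∈ B, ¬TypeSep Ψ (X i) Z) ∧
      ∀ L : List ι, HomEqNum W (prodList X Z L) ↔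
        ∀ L' : List ι, L'.Sublist L → SmallHodge Ψ X Z B L' → HomEqNum W (prodList X Z L')) ∧
    ((∀ i, TypeSep Ψ (X i) Z) → ∀ (L : List ι) (n : ℕ),
      (HomEqNum W (powN (prodList X Z L) n) ↔ HomEqNum W (powN Z n))) ∧
    ((∀ i, (∃ p q, TrType Ψ (X i) p q ∧ q + Z.dim < p) ∨ ∀ m, betti W Z m < trDim W (X i)) →
      HomEqNum W Z → ∀ L : List ι, HomEqNum W (prodList X Z L)) :=
  ⟨dh_general Ψ Z hX, fun h L n => dh_sep Ψ Z hX h L n, fun h hZ L => dh_level Ψ Z hX h hZ L⟩

end Pool.Agent.Results.MP_5f0950_ag.TimesSymplecticType
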